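import Pool.Agent.W941.MG.Stm

/-!
Project MG, part MULT: the number of balanced maps.
-/

set_option autoImplicit false

namespace Pool.Agent.W119.MG

open Finset Nat

open Classical in
/-- the number of maps with given fibre sizes -/
theorem card_fib (n b : ℕ) (d : Fin b → ℕ) (hd : ∑ i, d i = n) :
    (Finset.univ.filter fun f : Fin n → Fin b => ∀ j, (Finset.univ.filter fun c => f c = j).card =
      d j).card = Nat.multinomial Finset.univ d := by
  have h1 : ((∑ i : Fin b, (MvPolynomial.X i : MvPolynomial (Fin b) ℕ)) ^ n) =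
      ∑ f : Fin n → Fin b, ∏ c, MvPolynomial.X (f c) := by
    rw [Fintype.sum_pow]
  have h2 := congrArg (MvPolynomial.coeff (Finsupp.equivFunOnFinite.symm d)) h1
  rw [Finset.sum_pow_eq_sum_piAntidiag, MvPolynomial.coeff_sum, MvPolynomial.coeff_sum] at h2
  have h3 : ∀ f : Fin n → Fin b, MvPolynomial.coeff (Finsupp.equivFunOnFinite.symm d)
      (∏ c, (MvPolynomial.X (f c) : MvPolynomial (Fin b) ℕ)) =
      if (∀ j, (Finset.univ.filter fun c => f c = j).card = d j) then 1 else 0 := by
    intro f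
    have h4 : (∏ c, (MvPolynomial.X (f c) : MvPolynomial (Fin b) ℕ)) =
        MvPolynomial.monomial (∑ c, Finsupp.single (f c) 1) 1 := by
      rw [MvPolynomial.monomial_sum_one]
      rfl
    rw [h4, MvPolynomial.coeff_monomial]
    have h5 : (∑ c, Finsupp.single (f c) 1 = Finsupp.equivFunOnFinite.symm d) ↔
        (∀ j, (Finset.univ.filter fun c => f c = j).card = d j) := by
      rw [Finsupp.ext_iff]
      refine forall_congr' fun j => ?_
      rw [Finsupp.finsetSum_apply]
      simp only [Finsupp.single_apply, Finset.sum_boole, Nat.cast_id,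
        Finsupp.equivFunOnFinite_symm_apply_apply]
    simp only [h5]
  have h6 : ∀ k ∈ Finset.piAntidiag (Finset.univ : Finset (Fin b)) n,
      MvPolynomial.coeff (Finsupp.equivFunOnFinite.symm d)
        (((Nat.multinomial Finset.univ k : ℕ) : MvPolynomial (Fin b) ℕ) *
          ∏ i, MvPolynomial.X i ^ k i) =
      if k = d then Nat.multinomial Finset.univ k else 0 := by
    intro k _
    have h4 : (∏ i : Fin b, (MvPolynomial.X i : MvPolynomial (Fin b) ℕ) ^ k i) =
        MvPolynomial.monomial (Finsupp.equivFunOnFinite.symm k) 1 := by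
      rw [MvPolynomial.monomial_eq, MvPolynomial.C_1, one_mul, Finsupp.prod_fintype]
      · rfl
      · intro i; rw [pow_zero]
    rw [h4, ← MvPolynomial.C_eq_coe_nat, MvPolynomial.coeff_C_mul, MvPolynomial.coeff_monomial]
    simp only [EmbeddingLike.apply_eq_iff_eq]
    split_ifs <;> simp
  rw [Finset.sum_congr rfl h6, Finset.sum_congr rfl (fun f _ => h3 f)] at h2
  rw [Finset.sum_ite_eq' (Finset.piAntidiag (Finset.univ : Finset (Fin b)) n) d, if_pos] at h2
  · rw [h2, Finset.card_filter]
  · rw [Finset.mem_piAntidiag]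
    exact ⟨hd, fun i _ => Finset.mem_univ i⟩

theorem fac_le (m a : ℕ) : m ! * m ^ a ≤ a ! * m ^ m := by
  rcases le_total m a with h | h
  · obtain ⟨t, rfl⟩ := Nat.exists_eq_add_of_le h
    have h1 : m ! * (m + 1) ^ t ≤ (m + t)! := Nat.factorial_mul_pow_le_factorial
    have h2 : m ^ t ≤ (m + 1) ^ t := Nat.pow_le_pow_left (Nat.le_succ m) t
    calc m ! * m ^ (m + t) = (m ! * m ^ t) * m ^ m := by rw [pow_add]; ring
      _ ≤ (m + t)! * m ^ m := Nat.mul_le_mul_right _ ((Nat.mul_le_mul_left _ h2).trans h1)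
  · obtain ⟨t, rfl⟩ := Nat.exists_eq_add_of_le h
    have h1 : (a + t - t)! * (a + t).descFactorial t = (a + t)! :=
      Nat.factorial_mul_descFactorial (by omega)
    rw [Nat.add_sub_cancel] at h1
    have h2 : (a + t).descFactorial t ≤ (a + t) ^ t := Nat.descFactorial_le_pow _ _
    calc (a + t)! * (a + t) ^ a = a ! * (a + t).descFactorial t * (a + t) ^ a := by rw [h1]
      _ ≤ a ! * (a + t) ^ t * (a + t) ^ a :=
          Nat.mul_le_mul_right _ (Nat.mul_le_mul_left _ h2)
      _ = a ! * (a + t) ^ (a + t) := by rw [pow_add]; ring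

theorem prod_fac (K m : ℕ) (hm : 1 ≤ m) (a : Fin K → ℕ) (ha : ∑ i, a i = K * m) :
    (m !) ^ K ≤ ∏ i, (a i)! := by
  have h1 : ∏ i : Fin K, (m ! * m ^ (a i)) ≤ ∏ i : Fin K, ((a i)! * m ^ m) :=
    Finset.prod_le_prod' (fun i _ => fac_le m (a i))
  rw [Finset.prod_mul_distrib, Finset.prod_mul_distrib, Finset.prod_pow_eq_pow_sum, ha,
    Finset.prod_const, Finset.prod_const, Finset.card_univ, Fintype.card_fin, ← pow_mul,
    mul_comm m K] at h1
  exact Nat.le_of_mul_le_mul_right h1 (Nat.pow_pos hm)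

theorem main_ineq (K m : ℕ) (hm : 1 ≤ m) :
    K ^ (K * m) * (m !) ^ K ≤ (K * m + 1) ^ K * (K * m)! := by
  have h1 : (∑ _i : Fin K, (1 : ℕ)) ^ (K * m) = ∑ k ∈ Finset.piAntidiag
      (Finset.univ : Finset (Fin K)) (K * m), Nat.multinomial Finset.univ k := by
    rw [Finset.sum_pow_eq_sum_piAntidiag]
    refine Finset.sum_congr rfl fun k _ => ?_
    simp
  rw [Finset.sum_const, Finset.card_univ, Fintype.card_fin, smul_eq_mul, mul_one] at h1
  rw [h1, Finset.sum_mul]
  have h2 : ∀ k ∈ Finset.piAntidiag (Finset.univ : Finset (Fin K)) (K * m),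
      Nat.multinomial Finset.univ k * (m !) ^ K ≤ (K * m)! := by
    intro k hk
    have h3 : ∑ i, k i = K * m := (Finset.mem_piAntidiag.1 hk).1
    have h4 := Nat.multinomial_spec (Finset.univ : Finset (Fin K)) k
    rw [h3] at h4
    rw [← h4, mul_comm]
    exact Nat.mul_le_mul_right _ (prod_fac K m hm k h3)
  refine (Finset.sum_le_card_nsmul _ _ _ h2).trans ?_
  rw [smul_eq_mul]
  refine Nat.mul_le_mul_right _ ?_
  have h5 : Finset.piAntidiag (Finset.univ : Finset (Fin K)) (K * m) ⊆
      Fintype.piFinset (fun _ : Fin K => Finset.range (K * m + 1)) := by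
    intro k hk
    have h3 : ∑ i, k i = K * m := (Finset.mem_piAntidiag.1 hk).1
    rw [Fintype.mem_piFinset]
    intro i
    rw [Finset.mem_range, ← h3]
    have := Finset.single_le_sum (f := k) (fun _ _ => Nat.zero_le _) (Finset.mem_univ i)
    omega
  refine (Finset.card_le_card h5).trans ?_
  rw [Fintype.card_piFinset]
  simp

theorem mult : Pool.Agent.W941.MG.MultStmt := by
  classical
  intro K m hK hm
  have h1 := card_fib ((K + 1) * m) (K + 1) (fun _ => m) (by simp)
  have h2 := Nat.multinomial_spec (Finset.univ : Finset (Fin (K + 1))) (fun _ => m)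
  simp only [Finset.prod_const, Finset.card_univ, Fintype.card_fin, Finset.sum_const,
    smul_eq_mul] at h2
  set Bc := (Finset.univ.filter fun f : Fin ((K + 1) * m) → Fin (K + 1) =>
    Pool.Agent.W941.MG.Bal (K + 1) m f).card with hBc
  have h3 : Bc = Nat.multinomial Finset.univ (fun _ : Fin (K + 1) => m) := by
    rw [← h1, hBc]
    unfold Pool.Agent.W941.MG.Bal
    congr!
  rw [← h3] at h2
  have h4 : Nat.choose ((K + 1) * m) m * m ! * ((K + 1) * m - m)! = ((K + 1) * m)! :=
    Nat.choose_mul_factorial_mul_factorial (Nat.le_mul_of_pos_left m (by omega))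
  have h5 : (K + 1) * m - m = K * m := by
    rw [Nat.add_mul, one_mul, Nat.add_sub_cancel]
  rw [h5] at h4
  have h6 := main_ineq K m hm
  have hpos : 0 < m ! * (K * m)! := Nat.mul_pos (Nat.factorial_pos _) (Nat.factorial_pos _)
  apply Nat.le_of_mul_le_mul_right _ hpos
  calc Nat.choose ((K + 1) * m) m * K ^ (K * m) * (m ! * (K * m)!)
      = (Nat.choose ((K + 1) * m) m * m ! * (K * m)!) * K ^ (K * m) := by ring
    _ = (m ! ^ (K + 1) * Bc) * K ^ (K * m) := by rw [h4, h2]
    _ = (K ^ (K * m) * (m !) ^ K) * (m ! * Bc) := by rw [pow_succ]; ring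
    _ ≤ ((K * m + 1) ^ K * (K * m)!) * (m ! * Bc) := Nat.mul_le_mul_right _ h6
    _ = (K * m + 1) ^ K * Bc * (m ! * (K * m)!) := by ring

end Pool.Agent.W119.MG
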